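import Pool.Agent.Results.MP_d37f77_nt.TwistedCyclicCoverings
import Pool.Agent.T9h60.FD.Window

/-!
# Finite descent on the twists of cyclic coverings by factorials, binomial coefficients and other
# integers divisible by all primes of an interval

Let `D : b y ^ n = ∏ k, G k (z, w)` be a curve over `ℚ`, where the `G k` are the homogenisations of
polynomials `g k` with integral coefficients, of degrees divisible by `n`, pairwise coprime, and let
`h` be a polynomial with integral coefficients, coprime to the `g k`, and `H` its homogenisation. For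
an integer `a` and `m ≥ 2`, `m ∣ deg h`, consider the curve

  `C a : b y ^ n = ∏ k, G k (z, w)`, `a x ^ m = H (z, w)`,

a cyclic covering of degree `m` of `D`; for different `a` these are twists of each other. Every
`n`-covering of `C a` factors through one of the coverings

  `D δ : G k (z, w) = δ k * y k ^ n` (all `k`), `a x ^ m = H (z, w)`, `∏ δ k = b t ^ n`.

The starting files on these coverings (`TwistedCyclicCoverings`, `ThinSequencesOfCoverings`,
`TwistsAlongRandomWalks`) show that finite descent explains the absence of rational points for almost all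
`a` in various families, with exceptional sets. Here is a class of integers `a`, of a natural
arithmetical kind, for which there are no exceptions at all, apart from finitely many: the integers
`a` which are divisible by all primes of an interval `(λ y, μ y]` to an exponent prime to `deg h`
(for instance exactly once), such as `y!`, the binomial coefficient `(2 y)! / (y!)²`, the least common
multiple of `1, …, y`, and the products `∏ k ^ k`, `k ≤ y`, and their products with fixed integers.

**Theorem.** For all data `n`, `b`, `g`, `h`, all `0 < λ < μ` and all `y ≥ y₀`, `y₀` depending on these data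
only, all such integers `a` have the following property: the coverings `D δ` of `C a` with points over all
fields `ℚ_p` are persistent; if there are no persistent classes, no `D δ` has points over all `ℚ_p` and
`C a` has no rational point; if `n = 2` and the zeros of `h` are one or two integers, then the coverings `D δ`
satisfy the Hasse principle. In particular, for all `u ≠ 0` and all large `y` the curves

  `Y² = (z² + 51) (z² - 1)`, `u y! x ^ m = (z² + 1) (z² - 17) (z² + 17)`,  `m = 2, 3, 6`,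

have points over `ℝ` and over all `ℚ_p`, but no rational points, and finite descent explains this.

Proof. For a class `δ` which is not persistent there is, by the theorem of Chebotarev (natural density,
starting files), a set of primes `p` with a prescribed Frobenius element, which meets all the intervals
`(λ y, μ y]` with `y` large, such that a covering `D δ` of `C a` has no point over `ℚ_p` if the exponent of `p`
in `a` is not divisible by `m`.
-/

set_option autoImplicit false

namespace Pool.Agent.Results.MP_d37f77_nt.FactorialTwists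

open Polynomial Pool.Agent.R925.FD Filter
open Pool.Agent.Results.MP_d37f77_nt.TwistedCyclicCoverings (Admissible LocallySoluble)

/-- Every prime `p` of the interval `(λ y, μ y]` divides `a` to an exponent which is prime to `D`. -/
def FullWindow (D : ℕ) (lam mu : ℝ) (y : ℕ) (a : ℤ) : Prop :=
  ∀ p : ℕ, p.Prime → lam * y < p → (p : ℝ) ≤ mu * y → (padicValInt p a).Coprime D

/-- The coverings of the curves `C a` which have points over all the fields `ℚ_p` are persistent. -/
def OnlyPersistent {K : Type} [Fintype K] (n : ℕ) (b : ℤ) (g : K → ℤ[X]) (h : ℤ[X]) (a : ℤ) : Prop :=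
  ∀ m, 2 ≤ m → m ∣ h.natDegree → ∀ δ : K → ℚ, IsClass n b δ → LocallySoluble n m a g h δ →
    Persistent n g h δ

/-- No covering of one of the curves `C a` has points over all the fields `ℚ_p`, and the curves have no
rational points. -/
def EmptySelmer {K : Type} [Fintype K] (n : ℕ) (b : ℤ) (g : K → ℤ[X]) (h : ℤ[X]) (a : ℤ) : Prop :=
  ∀ m, 2 ≤ m → m ∣ h.natDegree → (∀ δ : K → ℚ, IsClass n b δ → ¬ LocallySoluble n m a g h δ) ∧
    ¬ CurveHasPoint n m b a g h ℚ

/-- The coverings of the curves `C a` which have points over all the fields `ℚ_p` have rational points. -/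
def HassePrinciple {K : Type} [Fintype K] (b : ℤ) (g : K → ℤ[X]) (h : ℤ[X]) (a : ℤ) : Prop :=
  ∀ m, 2 ≤ m → m ∣ h.natDegree → ∀ δ : K → ℚ, IsClass 2 b δ → LocallySoluble 2 m a g h δ →
    CoveringHasPoint 2 m a g h δ ℚ

section
variable {K : Type} [Fintype K] {n : ℕ} {b : ℤ} {g : K → ℤ[X]} {h : ℤ[X]} {a : ℤ}

/-- A rational point of a covering is a point over `ℚ_p`. -/
lemma local_of_rational {m : ℕ} {δ : K → ℚ} (hC : CoveringHasPoint n m a g h δ ℚ) :
    LocallySoluble n m a g h δ := by
  intro p hp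
  obtain ⟨z, w, x, hzw, hx, hy⟩ := hC
  refine ⟨(z : ℚ_[p]), (w : ℚ_[p]), (x : ℚ_[p]), ?_, ?_, fun k => ?_⟩
  · rcases hzw with h1 | h1
    · exact Or.inl (Rat.cast_ne_zero.2 h1)
    · exact Or.inr (Rat.cast_ne_zero.2 h1)
  · have h2 := congrArg (fun q : ℚ => (q : ℚ_[p])) hx
    simp only [Rat.cast_mul, Rat.cast_pow, Rat.cast_intCast] at h2
    rw [h2]
    exact (hom_map h (Rat.castHom ℚ_[p]) z w)
  · obtain ⟨y, hyk⟩ := hy k
    refine ⟨(y : ℚ_[p]), ?_⟩
    have h2 := congrArg (fun q : ℚ => (q : ℚ_[p])) hyk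
    simp only [Rat.cast_mul, Rat.cast_pow, Rat.cast_id] at h2
    rw [← h2]
    exact (hom_map (g k) (Rat.castHom ℚ_[p]) z w).symm

lemma empty_of (hA : Admissible n b g h)
    (hno : ∀ δ : K → ℚ, IsClass n b δ → ¬ Persistent n g h δ)
    (hp : OnlyPersistent n b g h a) : EmptySelmer n b g h a := by
  classical
  intro m hm hmh
  refine ⟨fun δ h1 h2 => hno δ h1 (hp m hm hmh δ h1 h2), fun hC => ?_⟩
  obtain ⟨δ, h1, h2⟩ := exists_class n m hA.n_pos b a hA.b_ne g h hA.g_ne hA.coprime hC
  exact hno δ h1 (hp m hm hmh δ h1 (local_of_rational h2))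

lemma hasse_of {α₁ α₂ : ℤ} (hA : Admissible 2 b g h)
    (hz : ∀ β : AlgebraicClosure ℚ, aeval β h = 0 ↔ β = α₁ ∨ β = α₂)
    (hp : OnlyPersistent 2 b g h a) : HassePrinciple b g h a := by
  intro m hm hmh δ h3 h4
  have hper := hp m hm hmh δ h3 h4
  -- the zeros of `h`
  have hzero : ∀ α : ℤ, aeval (α : AlgebraicClosure ℚ) h = 0 → h.eval α = 0 := by
    intro α hα
    have h6 := aeval_algebraMap_apply_eq_algebraMap_eval (A := AlgebraicClosure ℚ) α h
    rw [eq_intCast, eq_intCast, hα] at h6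
    exact_mod_cast h6.symm
  have hpt : ∀ (f : ℤ[X]) (α : ℤ), hom f (α : ℚ) 1 = ((f.eval α : ℤ) : ℚ) := by
    intro f α
    rw [hom_one]
    have h6 := eval₂_at_apply (p := f) (Int.castRingHom ℚ) α
    rw [eq_intCast, eq_intCast] at h6
    exact h6
  have hg : ∀ (k : K) (α : ℤ), h.eval α = 0 → (g k).eval α ≠ 0 := by
    intro k α hα hgα
    refine coprime_field hA.h_ne (hA.coprime_h k) (F := ℚ) (z := (α : ℚ)) (w := 1)
      (Or.inr one_ne_zero) ?_ ?_
    · rw [hpt, hα, Int.cast_zero]
    · rw [hpt, hgα, Int.cast_zero]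
  have hα₁ := hzero α₁ ((hz α₁).2 (Or.inl rfl))
  have hα₂ := hzero α₂ ((hz α₂).2 (Or.inr rfl))
  have key : ∀ α : ℤ, h.eval α = 0 → (∀ k, IsSquare (δ k * ((g k).eval α : ℤ))) →
      CoveringHasPoint 2 m a g h δ ℚ := by
    intro α hα hsq
    refine ⟨α, 1, 0, Or.inr one_ne_zero, ?_, fun k => ?_⟩
    · rw [hpt, hα, zero_pow (by omega : m ≠ 0), mul_zero, Int.cast_zero]
    · obtain ⟨r, hr⟩ := hsq k
      have h7 := h3.1 k
      refine ⟨r / δ k, ?_⟩
      rw [hpt, Rat.cast_id, div_pow, sq r, ← hr]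
      field_simp
  rcases persistent_two g h α₁ α₂ (fun β hβ => (hz β).1 hβ) (fun k => hg k α₁ hα₁)
    (fun k => hg k α₂ hα₂) δ h3.1 hper with h6 | h6
  · exact key α₁ hα₁ h6
  · exact key α₂ hα₂ h6

end

theorem only_of_window {K : Type} [Fintype K] {n : ℕ} {b : ℤ} {g : K → ℤ[X]} {h : ℤ[X]}
    (hA : Admissible n b g h) {lam mu : ℝ} (hlam : 0 < lam) (hmu : lam < mu) :
    ∃ y₀ : ℕ, ∀ y : ℕ, y₀ ≤ y → ∀ a : ℤ, FullWindow h.natDegree lam mu y a →
      OnlyPersistent n b g h a := by
  obtain ⟨α, hα, Q, hQ, hcrit⟩ := Pool.Agent.T9h60.FD.fd_crit n hA.n_pos b hA.b_ne g h hA.g_ne hA.h_ne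
    hA.deg hA.coprime hA.coprime_h
  have h1 : ∀ i : α, ∀ᶠ y : ℕ in atTop, ∃ p ∈ Q i, lam * y < p ∧ (p : ℝ) ≤ mu * y := by
    intro i
    obtain ⟨L, iF, iN, iG, τ, m, hm, hi⟩ := hQ i
    rw [hi]
    exact Pool.Agent.T9h60.FD.frob_window L τ m hm hlam hmu
  obtain ⟨y₀, hy₀⟩ := eventually_atTop.1 (Filter.eventually_all.2 h1)
  refine ⟨y₀, fun y hy a ha m hm hmh δ h2 h3 => hcrit a (fun i => ?_) m hm hmh δ h2 h3⟩
  obtain ⟨p, hp, h4, h5⟩ := hy₀ y hy i
  obtain ⟨L, iF, iN, iG, τ, m, hm, hi⟩ := hQ i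
  have hpp : p.Prime := by
    rw [hi] at hp
    exact hp.1
  exact ⟨p, hp, ha p hpp h4 h5⟩

/-- a factor which is divisible by no prime of the window does not matter -/
lemma val_mul {p : ℕ} (hp : p.Prime) {u : ℤ} (hu : u ≠ 0) (hup : u.natAbs < p) {v : ℕ} (hv : v ≠ 0) :
    padicValInt p (u * v) = padicValNat p v := by
  have : Fact p.Prime := ⟨hp⟩
  rw [padicValInt.mul hu (by exact_mod_cast hv), padicValInt.of_nat, padicValInt.eq_zero_of_not_dvd, zero_add]
  intro hd
  have := Nat.le_of_dvd (Int.natAbs_pos.2 hu) (Int.natCast_dvd.1 hd)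
  omega

lemma val_factorial {p y : ℕ} (hp : p.Prime) (h1 : p ≤ y) (h2 : y < 2 * p) : padicValNat p y.factorial = 1 := by
  have : Fact p.Prime := ⟨hp⟩
  obtain ⟨r, hr, hr2⟩ : ∃ r, y = p + r ∧ r < p := ⟨y - p, by omega, by omega⟩
  have h3 : ∀ s, s < p → padicValNat p (p + s).factorial = 1 := by
    intro s
    induction s with
    | zero =>
      intro _
      rw [add_zero, ← Nat.mul_factorial_pred hp.ne_zero, padicValNat.mul hp.ne_zero (Nat.factorial_ne_zero _),
        padicValNat.self hp.one_lt, padicValNat.eq_zero_of_not_dvd]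
      intro hd
      have := (Nat.Prime.dvd_factorial hp).1 hd
      have := hp.pos
      omega
    | succ s ih =>
      intro hs
      rw [← add_assoc, Nat.factorial_succ, padicValNat.mul (by omega) (Nat.factorial_ne_zero _), ih (by omega),
        padicValNat.eq_zero_of_not_dvd]
      intro hd
      have h4 : p ∣ s + 1 := by
        have : p + s + 1 = p + (s + 1) := by ring
        rw [this] at hd
        exact (Nat.dvd_add_right dvd_rfl).1 hd
      have := Nat.le_of_dvd (by omega) h4
      omega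
  rw [hr]
  exact h3 r hr2

lemma window_factorial (D : ℕ) {u : ℤ} (hu : u ≠ 0) :
    ∀ᶠ y : ℕ in atTop, FullWindow D (1 / 2) 1 y (u * (y.factorial : ℤ)) := by
  filter_upwards [eventually_ge_atTop (2 * u.natAbs + 1)] with y hy p hp h1 h2
  have h3 : y < 2 * p := by
    have : (y : ℝ) < 2 * p := by linarith
    exact_mod_cast this
  have h4 : p ≤ y := by
    rw [one_mul] at h2
    exact_mod_cast h2
  rw [val_mul hp hu (by omega) (Nat.factorial_ne_zero _), val_factorial hp h4 h3]
  exact Nat.coprime_one_left _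

lemma window_centralBinom (D : ℕ) {u : ℤ} (hu : u ≠ 0) :
    ∀ᶠ y : ℕ in atTop, FullWindow D 1 2 y (u * (y.centralBinom : ℤ)) := by
  filter_upwards [eventually_ge_atTop (u.natAbs + 1)] with y hy p hp h1 h2
  have : Fact p.Prime := ⟨hp⟩
  have h3 : y < p := by
    rw [one_mul] at h1
    exact_mod_cast h1
  have h4 : p ≤ 2 * y := by exact_mod_cast h2
  rw [val_mul hp hu (by omega) (Nat.centralBinom_ne_zero _)]
  have h5 : padicValNat p (2 * y).factorial = 1 := val_factorial hp h4 (by omega)
  have h6 : padicValNat p y.factorial = 0 := by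
    refine padicValNat.eq_zero_of_not_dvd fun hd => ?_
    have := (Nat.Prime.dvd_factorial hp).1 hd
    omega
  have h7 : y.centralBinom * (y.factorial * y.factorial) = (2 * y).factorial := by
    have := Nat.choose_mul_factorial_mul_factorial (n := 2 * y) (k := y) (by omega)
    rw [show 2 * y - y = y by omega] at this
    rw [Nat.centralBinom_eq_two_mul_choose, ← mul_assoc]
    exact this
  have h8 := congrArg (padicValNat p) h7
  rw [padicValNat.mul (Nat.centralBinom_ne_zero _) (mul_ne_zero (Nat.factorial_ne_zero _)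
    (Nat.factorial_ne_zero _)), padicValNat.mul (Nat.factorial_ne_zero _) (Nat.factorial_ne_zero _),
    h6, h5] at h8
  rw [show padicValNat p y.centralBinom = 1 by omega]
  exact Nat.coprime_one_left _

lemma window_lcm (D : ℕ) {u : ℤ} (hu : u ≠ 0) :
    ∀ᶠ y : ℕ in atTop, FullWindow D (1 / 2) 1 y (u * (((Finset.Icc 1 y).lcm id : ℕ) : ℤ)) := by
  filter_upwards [eventually_ge_atTop (2 * u.natAbs + 1)] with y hy p hp h1 h2
  have : Fact p.Prime := ⟨hp⟩
  have h3 : y < 2 * p := by
    have : (y : ℝ) < 2 * p := by linarith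
    exact_mod_cast this
  have h4 : p ≤ y := by
    rw [one_mul] at h2
    exact_mod_cast h2
  have h0 : (Finset.Icc 1 y).lcm id ≠ 0 := by
    rw [Ne, Finset.lcm_eq_zero_iff]
    rintro ⟨x, hx, hx0⟩
    have := (Finset.mem_Icc.1 hx).1
    simp only [id] at hx0
    omega
  rw [val_mul hp hu (by omega) h0]
  have h5 : (Finset.Icc 1 y).lcm id ∣ y.factorial :=
    Finset.lcm_dvd fun x hx => Nat.dvd_factorial (Finset.mem_Icc.1 hx).1 (Finset.mem_Icc.1 hx).2
  have h6 : p ∣ (Finset.Icc 1 y).lcm id := by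
    have := Finset.dvd_lcm (f := id) (Finset.mem_Icc.2 ⟨hp.one_le, h4⟩)
    exact this
  have h7 : padicValNat p ((Finset.Icc 1 y).lcm id) ≤ padicValNat p y.factorial :=
    (padicValNat_dvd_iff_le (Nat.factorial_ne_zero _)).1 (pow_padicValNat_dvd.trans h5)
  rw [val_factorial hp h4 h3] at h7
  have h8 : 1 ≤ padicValNat p ((Finset.Icc 1 y).lcm id) := one_le_padicValNat_of_dvd h0 h6
  rw [show padicValNat p ((Finset.Icc 1 y).lcm id) = 1 by omega]
  exact Nat.coprime_one_left _

lemma window_hyper {D : ℕ} (hD : D ≠ 0) {u : ℤ} (hu : u ≠ 0) :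
    ∀ᶠ y : ℕ in atTop, FullWindow D (1 / 2) 1 y (u * ((∏ k ∈ Finset.Icc 1 y, k ^ k : ℕ) : ℤ)) := by
  filter_upwards [eventually_ge_atTop (2 * u.natAbs + 1), eventually_ge_atTop (2 * D)] with y hy hyD p hp h1 h2
  have : Fact p.Prime := ⟨hp⟩
  have h3 : y < 2 * p := by
    have : (y : ℝ) < 2 * p := by linarith
    exact_mod_cast this
  have h4 : p ≤ y := by
    rw [one_mul] at h2
    exact_mod_cast h2
  have h0 : ∀ k ∈ Finset.Icc 1 y, k ^ k ≠ 0 := fun k hk =>
    pow_ne_zero _ (by have := (Finset.mem_Icc.1 hk).1; omega)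
  rw [val_mul hp hu (by omega) (Finset.prod_ne_zero_iff.2 h0)]
  have h5 : padicValNat p (∏ k ∈ Finset.Icc 1 y, k ^ k) = p := by
    rw [← Finset.mul_prod_erase _ _ (Finset.mem_Icc.2 ⟨hp.one_le, h4⟩),
      padicValNat.mul (pow_ne_zero _ hp.ne_zero)
        (Finset.prod_ne_zero_iff.2 fun k hk => h0 k (Finset.mem_of_mem_erase hk)),
      padicValNat.prime_pow, padicValNat.eq_zero_of_not_dvd, add_zero]
    intro hd
    obtain ⟨k, hk, hdk⟩ := (Prime.dvd_finsetProd_iff hp.prime _).1 hd
    have h6 := hp.dvd_of_dvd_pow hdk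
    have h7 := Finset.mem_erase.1 hk
    have h8 := Finset.mem_Icc.1 h7.2
    obtain ⟨c, hc⟩ := h6
    have h9 : c ≠ 0 := by
      rintro rfl
      omega
    have h10 : c ≠ 1 := by
      rintro rfl
      omega
    have h11 : 2 * p ≤ p * c := by
      have : 2 ≤ c := by omega
      nlinarith
    omega
  rw [h5]
  refine (Nat.Prime.coprime_iff_not_dvd hp).2 fun hd => ?_
  have := Nat.le_of_dvd (Nat.pos_of_ne_zero hD) hd
  omega

/-- **Finite descent on twists by integers divisible by all primes of an interval.** -/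
theorem result :
    (∀ (K : Type) [Fintype K] (n : ℕ) (b : ℤ) (g : K → ℤ[X]) (h : ℤ[X]), Admissible n b g h →
      ∀ lam mu : ℝ, 0 < lam → lam < mu → ∃ y₀ : ℕ, ∀ y : ℕ, y₀ ≤ y →
        ∀ a : ℤ, FullWindow h.natDegree lam mu y a →
          OnlyPersistent n b g h a ∧
          ((∀ δ : K → ℚ, IsClass n b δ → ¬ Persistent n g h δ) → EmptySelmer n b g h a) ∧
          (n = 2 → ∀ α₁ α₂ : ℤ, (∀ β : AlgebraicClosure ℚ, aeval β h = 0 ↔ β = α₁ ∨ β = α₂) →
            HassePrinciple b g h a)) ∧
    (∀ (D : ℕ) (u : ℤ), u ≠ 0 → ∀ᶠ y : ℕ in atTop,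
      FullWindow D (1 / 2) 1 y (u * (y.factorial : ℤ)) ∧
      FullWindow D 1 2 y (u * (y.centralBinom : ℤ)) ∧
      FullWindow D (1 / 2) 1 y (u * (((Finset.Icc 1 y).lcm id : ℕ) : ℤ)) ∧
      (D ≠ 0 → FullWindow D (1 / 2) 1 y (u * ((∏ k ∈ Finset.Icc 1 y, k ^ k : ℕ) : ℤ)))) ∧
    (∀ u : ℤ, u ≠ 0 → ∀ᶠ y : ℕ in atTop, ∀ a : ℤ,
      (a = u * y.factorial ∨ a = u * y.centralBinom) → ∀ m : ℕ, (m = 2 ∨ m = 3 ∨ m = 6) →
        (CurveHasPoint 2 m 1 a exg exh ℝ ∧
          ∀ (p : ℕ) [Fact p.Prime], CurveHasPoint 2 m 1 a exg exh ℚ_[p]) ∧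
        (∀ δ : Fin 2 → ℚ, IsClass 2 1 δ → ¬ LocallySoluble 2 m a exg exh δ) ∧
        ¬ CurveHasPoint 2 m 1 a exg exh ℚ) := by
  have hmain : ∀ (K : Type) [Fintype K] (n : ℕ) (b : ℤ) (g : K → ℤ[X]) (h : ℤ[X]), Admissible n b g h →
      ∀ lam mu : ℝ, 0 < lam → lam < mu → ∃ y₀ : ℕ, ∀ y : ℕ, y₀ ≤ y →
        ∀ a : ℤ, FullWindow h.natDegree lam mu y a →
          OnlyPersistent n b g h a ∧
          ((∀ δ : K → ℚ, IsClass n b δ → ¬ Persistent n g h δ) → EmptySelmer n b g h a) ∧
          (n = 2 → ∀ α₁ α₂ : ℤ, (∀ β : AlgebraicClosure ℚ, aeval β h = 0 ↔ β = α₁ ∨ β = α₂) →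
            HassePrinciple b g h a) := by
    intro K _ n b g h hA lam mu hlam hmu
    obtain ⟨y₀, hy₀⟩ := only_of_window hA hlam hmu
    refine ⟨y₀, fun y hy a ha => ?_⟩
    have h1 := hy₀ y hy a ha
    refine ⟨h1, fun hno => empty_of hA hno h1, ?_⟩
    rintro rfl α₁ α₂ hz
    exact hasse_of hA hz h1
  refine ⟨hmain, fun D u hu => ?_, fun u hu => ?_⟩
  · by_cases hD : D = 0
    · filter_upwards [window_factorial D hu, window_centralBinom D hu, window_lcm D hu] with y h1 h2 h3
      exact ⟨h1, h2, h3, fun h => absurd hD h⟩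
    · filter_upwards [window_factorial D hu, window_centralBinom D hu, window_lcm D hu,
        window_hyper hD hu] with y h1 h2 h3 h4
      exact ⟨h1, h2, h3, fun _ => h4⟩
  · obtain ⟨hA, hno, hloc⟩ := TwistedCyclicCoverings.result.2.2
    obtain ⟨y₁, hy₁⟩ := hmain (Fin 2) 2 1 exg exh hA (1 / 2) 1 (by norm_num) (by norm_num)
    obtain ⟨y₂, hy₂⟩ := hmain (Fin 2) 2 1 exg exh hA 1 2 (by norm_num) (by norm_num)
    filter_upwards [window_factorial exh.natDegree hu, window_centralBinom exh.natDegree hu,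
      eventually_ge_atTop y₁, eventually_ge_atTop y₂] with y h1 h2 h3 h4
    intro a ha m hm
    have hm0 : m ≠ 0 := by omega
    have hm2 : 2 ≤ m := by omega
    have hmd : m ∣ exh.natDegree := by
      rw [exh_deg]
      rcases hm with rfl | rfl | rfl <;> norm_num
    have hE : EmptySelmer 2 1 exg exh a := by
      rcases ha with rfl | rfl
      · exact (hy₁ y h3 _ h1).2.1 hno
      · exact (hy₂ y h4 _ h2).2.1 hno
    exact ⟨hloc a m hm0, hE m hm2 hmd⟩

end Pool.Agent.Results.MP_d37f77_nt.FactorialTwists
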