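import Pool.Agent.T9h60.FD.Sel
import Pool.Agent.T9h60.FD.MultMain

/-!
# Finite descent on the twists of cyclic coverings by the values of multiplicative functions

Let `D : b y ^ n = ∏ k, G k (z, w)` be a curve over `ℚ`, where the `G k` are the homogenisations of
polynomials `g k` with integral coefficients, of degrees divisible by `n`, pairwise coprime, and let
`h` be a polynomial with integral coefficients, coprime to the `g k`, and `H` its homogenisation. For
an integer `a` and `m ≥ 2`, `m ∣ deg h`, consider the curve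

  `C a : b y ^ n = ∏ k, G k (z, w)`, `a x ^ m = H (z, w)`,

a cyclic covering of degree `m` of `D`; for different `a` these are twists of each other. Every
`n`-covering of `C a` factors through one of the coverings

  `D δ : G k (z, w) = δ k * y k ^ n` (all `k`), `a x ^ m = H (z, w)`, `∏ δ k = b t ^ n`.

Here `a = u f(l)`, where `u ≠ 0` is fixed and `f` is a multiplicative function with nonzero integral values of
polynomial growth such that `f(r) = r ^ j P(r)` for all large primes `r`, with a polynomial `P`, `P(0) ≠ 0`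
(`PolyMult P f`; the values at the prime powers are arbitrary). Examples: Euler's function (`P = X - 1`), the sums
of the powers of the divisors (`P = X ^ k + 1`), the orders of the groups `SL_2(ℤ/l)` (`j = 1`, `P = X² - 1`)
and `GL_2(ℤ/l)`. The values of such functions are thin sets, taken with large multiplicities, and for every fixed `q`
almost all values are divisible by `q` (and by `q²`, …) for the classical functions, so that nothing follows
from the starting files on almost all `a` or on sequences uniformly distributed modulo all integers.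

A class `δ` is persistent for `P` if every automorphism `σ` of the field of algebraic numbers which fixes a
simple zero of `P` fixes a zero `β` of `h` and solutions `y k` of `g k (β) = δ k * y k ^ n` (all `k`).

**Theorem.** (1) For all `P` with `P(0) ≠ 0` and all data `n`, `b`, `g`, `h` there is `κ > 0` such that for all `f`
as above and `u ≠ 0` and all `l ≤ N` with at most `C N (log N) ^ (-κ)` exceptions, the coverings `D δ` of `C a`,
`a = u f(l)`, with points over all `ℚ_p` are persistent for `P`. If no class is persistent for `P` then for the same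
`l` no `D δ` has points over all `ℚ_p`, and `C a` has no rational points; if `P` has a simple rational
zero, `n = 2` and the zeros of `h` are one or two integers, then the coverings `D δ` satisfy the Hasse principle.

(2) Suppose that `P` has a simple zero `θ` such that `ℚ(θ)` does not contain the square roots of `-1`,
`-2`, `±17`, `±34`. Then for `m = 2, 3, 6` and all `l ≤ N` with at most `C N (log N) ^ (-κ)` exceptions the curves

  `Y² = (z² + 51) (z² - 1)`, `u f(l) x ^ m = (z² + 1) (z² - 17) (z² + 17)`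

have points over `ℝ` and over all `ℚ_p`, but no rational points, and finite descent explains this. This holds
for Euler's function and for the sums of the `k`-th powers of the divisors, `k` odd.

Proof. For almost all `l` there is a prime `r > exp((log l) ^ (1 - ε))` which divides `l` exactly once. For
given `l' = l / r` the primes `r` such that `P(r)` has no exact prime divisor with a given Frobenius element
which does not divide `u f(l')` are few by Brun's sieve, uniformly in `l'`, as `u f(l')` has few prime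
divisors. An exact prime divisor of `P(r)` prime to `u f(l')` divides `u f(l)` exactly.
-/

set_option autoImplicit false

namespace Pool.Agent.Results.MP_d37f77_nt.MultiplicativeTwists

open Polynomial Pool.Agent.R925.FD IntermediateField
open Pool.Agent.Results.MP_d37f77_nt.TwistedCyclicCoverings (Admissible)
open Pool.Agent.T9h60.FD

/-- `T l` is true for all `l ≤ N` with at most `C N (log N) ^ (-κ)` exceptions. -/
def MostlyTrue (κ : ℝ) (T : ℕ → Prop) : Prop :=
  ∃ C : ℝ, ∀ N : ℕ, 3 ≤ N → ({l : ℕ | 0 < l ∧ l ≤ N ∧ ¬ T l}.ncard : ℝ) ≤ C * N * (Real.log N) ^ (-κ)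

lemma MostlyTrue.mono {κ : ℝ} {T T' : ℕ → Prop} (h : MostlyTrue κ T) (h' : ∀ t, T t → T' t) :
    MostlyTrue κ T' := by
  obtain ⟨C, hC⟩ := h
  refine ⟨C, fun N hN => le_trans (Nat.cast_le.2 (Set.ncard_le_ncard ?_ ?_)) (hC N hN)⟩
  · rintro t ⟨h1, h2, h3⟩
    exact ⟨h1, h2, fun h4 => h3 (h' t h4)⟩
  · exact (Set.finite_Ioc 0 N).subset fun t ht => ⟨ht.1, ht.2.1⟩

/-- **Finite descent on the twists by the values of multiplicative functions.** -/
theorem result :
    (∀ P : ℤ[X], P.eval 0 ≠ 0 → ∀ (K : Type) [Fintype K] (n : ℕ) (b : ℤ) (g : K → ℤ[X]) (h : ℤ[X]),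
      Admissible n b g h → ∃ κ : ℝ, 0 < κ ∧ ∀ f : ℕ → ℤ, PolyMult P f → ∀ u : ℤ, u ≠ 0 →
        MostlyTrue κ (fun l => OnlyPersistentFor P n b g h (u * f l)) ∧
        ((∀ δ : K → ℚ, IsClass n b δ → ¬ PersistentFor P n g h δ) →
          MostlyTrue κ (fun l => EmptySelmer n b g h (u * f l))) ∧
        (n = 2 → ∀ q : ℚ, aeval q P = 0 → aeval q (derivative P) ≠ 0 → ∀ α₁ α₂ : ℤ,
          (∀ β : AlgebraicClosure ℚ, aeval β h = 0 ↔ β = α₁ ∨ β = α₂) →
          MostlyTrue κ (fun l => HassePrinciple b g h (u * f l)))) ∧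
    (∀ (P : ℤ[X]) (θ : AlgebraicClosure ℚ), P.eval 0 ≠ 0 → aeval θ P = 0 → aeval θ (derivative P) ≠ 0 →
      (∀ x ∈ ℚ⟮θ⟯, ∀ q : ℤ, (q = -1 ∨ q = -2 ∨ q = 17 ∨ q = -17 ∨ q = 34 ∨ q = -34) → x ^ 2 ≠ q) →
      ∃ κ : ℝ, 0 < κ ∧ ∀ f : ℕ → ℤ, PolyMult P f → ∀ u : ℤ, u ≠ 0 →
        MostlyTrue κ fun l => ∀ m : ℕ, (m = 2 ∨ m = 3 ∨ m = 6) → Counterexample m (u * f l)) ∧
    (PolyMult (X - 1) (fun l => (Nat.totient l : ℤ)) ∧
      ∀ k : ℕ, PolyMult (X ^ (k + 1) + 1) (fun l => ((ArithmeticFunction.sigma (k + 1) l : ℕ) : ℤ))) := by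
  classical
  have hmain : ∀ P : ℤ[X], P.eval 0 ≠ 0 → ∀ (K : Type) [Fintype K] (n : ℕ) (b : ℤ) (g : K → ℤ[X]) (h : ℤ[X]),
      Admissible n b g h → ∃ κ : ℝ, 0 < κ ∧ ∀ f : ℕ → ℤ, PolyMult P f → ∀ u : ℤ, u ≠ 0 →
        MostlyTrue κ (fun l => OnlyPersistentFor P n b g h (u * f l)) := by
    intro P hP K _ n b g h hA
    obtain ⟨κ, hκ, h1⟩ := mult_main P hP n hA.n_pos b hA.b_ne g h hA.g_ne hA.h_ne hA.deg hA.coprime hA.coprime_h
    refine ⟨κ, hκ, fun f hf u hu => ?_⟩
    obtain ⟨C, hC⟩ := h1 f hf u hu
    refine ⟨C, fun N hN => le_trans (Nat.cast_le.2 ?_) (hC N hN)⟩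
    rw [← Set.ncard_coe_finset]
    refine Set.ncard_le_ncard ?_ (Finset.finite_toSet _)
    rintro l ⟨h2, h3, h4⟩
    rw [Finset.mem_coe, Finset.mem_filter, Finset.mem_Ioc]
    exact ⟨⟨h2, h3⟩, fun h5 => h4 (only_of h5)⟩
  have hne : ∀ (P : ℤ[X]) {F : Type} [Field F] (θ : F), aeval θ (derivative P) ≠ 0 → P ≠ 0 := by
    rintro P F _ θ h1 rfl
    exact h1 (by rw [derivative_zero, map_zero])
  refine ⟨fun P hP K _ n b g h hA => ?_, fun P θ hP h0 h1 hθ => ?_, ?_, fun k => ?_⟩
  · obtain ⟨κ, hκ, h1⟩ := hmain P hP K n b g h hA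
    refine ⟨κ, hκ, fun f hf u hu => ⟨h1 f hf u hu, fun hno => (h1 f hf u hu).mono fun t => empty_of hA hno, ?_⟩⟩
    rintro rfl q h2 h3 α₁ α₂ hz
    exact (h1 f hf u hu).mono fun t => hasse_of hA hz h2 h3
  · obtain ⟨κ, hκ, h2⟩ := hmain P hP (Fin 2) 2 1 exg exh ex_admissible
    refine ⟨κ, hκ, fun f hf u hu => (h2 f hf u hu).mono fun l hl m hm => ?_⟩
    exact ex_of (empty_of ex_admissible (fun δ hδ => no_pers P θ h0 h1 hθ δ (hδ.1 0)) hl) m hm
  · refine ⟨fun m n h => ?_, fun m hm => ?_, ⟨1, 1, fun m hm => ?_⟩, ⟨2, 0, fun r hr _ => ?_⟩⟩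
    · rw [Nat.totient_mul h, Nat.cast_mul]
    · have := Nat.totient_pos.2 (Nat.pos_of_ne_zero hm)
      exact_mod_cast this.ne'
    · rw [Int.natAbs_natCast, one_mul, pow_one]
      exact Nat.totient_le m
    · rw [Nat.totient_prime hr, Nat.cast_sub hr.one_le, pow_zero, one_mul, eval_sub, eval_X, eval_one,
        Nat.cast_one]
  · refine ⟨fun m n h => ?_, fun m hm => ?_, ⟨1, k + 2, fun m hm => ?_⟩, ⟨2, 0, fun r hr _ => ?_⟩⟩
    · rw [ArithmeticFunction.isMultiplicative_sigma.map_mul_of_coprime h, Nat.cast_mul]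
    · have : 0 < ArithmeticFunction.sigma (k + 1) m := by
        rw [ArithmeticFunction.sigma_apply]
        exact Finset.sum_pos (fun d hd => pow_pos (Nat.pos_of_mem_divisors hd) _)
          ⟨1, Nat.one_mem_divisors.2 hm⟩
      exact_mod_cast this.ne'
    · rw [Int.natAbs_natCast, one_mul, ArithmeticFunction.sigma_apply]
      calc ∑ d ∈ m.divisors, d ^ (k + 1) ≤ ∑ d ∈ m.divisors, m ^ (k + 1) :=
            Finset.sum_le_sum fun d hd => Nat.pow_le_pow_left (Nat.divisor_le hd) _
        _ = m.divisors.card * m ^ (k + 1) := by rw [Finset.sum_const, smul_eq_mul]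
        _ ≤ m * m ^ (k + 1) := Nat.mul_le_mul_right _ (Nat.card_divisors_le_self m)
        _ = m ^ (k + 2) := by ring
    · rw [ArithmeticFunction.sigma_apply, Nat.Prime.divisors hr, Finset.sum_pair hr.one_lt.ne]
      push_cast
      rw [eval_add, eval_pow, eval_X, eval_one]
      ring

end Pool.Agent.Results.MP_d37f77_nt.MultiplicativeTwists
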