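import Pool.Agent.Results.MP_d37f77_nt.FactorialTwists
import Pool.Agent.T9h60.OD.ExOdd
import Pool.Agent.T9h60.OD.Use

/-!
# Finite descent over all number fields of degree prime to `n`

Let `D : b y ^ n = ∏ k, G k (z, w)` be a curve over `ℚ`, where the `G k` are the homogenisations of polynomials `g k` with
integral coefficients, of degrees divisible by `n`, pairwise coprime, let `h` be a polynomial with integral coefficients,
coprime to the `g k`, and `H` its homogenisation. For an integer `a` and `m ≥ 2` with `n ∣ m ∣ deg h` consider the curve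

  `C a : b y ^ n = ∏ k, G k (z, w)`, `a x ^ m = H (z, w)`

and, over a number field `F`, its coverings `D δ : G k (z, w) = δ k * y k ^ n` (all `k`), `a x ^ m = H (z, w)`, for `δ k` in `F`
with `∏ δ k = b t ^ n`, `t` in `F`.

The earlier files treat the points and the coverings over `ℚ`. Here is a result over all number fields `F` at once.

**Theorem.** Let `a` be an integer whose exponent at every prime of an interval `(λ y, μ y]` is prime to `deg h`, with
`y ≥ y₀` (`y₀` depends on `n, b, g, h, λ, μ` only), or an integer outside a set with at most `C H (log H) ^ (-κ)` elements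
in every interval `(M, M + H]`. For EVERY number field `F`, every class `δ` over `F` such that `D δ` has points over all
completions `F_v` (`v` finite) has a norm `N (δ)` which is persistent of degree `[F : ℚ]`, a condition on the numbers
`N (δ k)`, the degree modulo `n` and the numbers `g k (β)`, `h (β) = 0`, which does not involve `F` and `a`. If there are no
classes over `ℚ` which are persistent of a degree prime to `n`, then for EVERY number field `F` of degree prime to `n`:
no `D δ` over `F` has points over all `F_v`, `C a` has no points over `F` (so that the degrees of all divisors of `C a`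
have a factor in common with `n`), and for every affine variety `U` over `ℚ` and every morphism over `F` from `U` to `C a`,
`U` has no rational points and no covering `V δ` of `U`, the pull-back of (the restriction of scalars of) `D δ`, has points
over all `ℚ_p`: these curves `U` over `ℚ` satisfy the statement of the problem. For `n = 2` the example

  `Y² = (z² + 51) (z² - 1)`, `a x ^ m = (z² + 1) (z² - 17) (z² + 17)`,  `m = 2, 6`,

has points over `ℝ` and all `ℚ_p`, and no class is persistent of odd degree: for `a = u y!` or `u (2 y)! / (y!)²`, `y` large,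
it has no points over any number field of odd degree, and finite descent explains this.

Proof. The places `v` of `F` over a prime `p`, whose exponent in `a` is prime to `deg h`, with `m` not dividing the ramification
index `e_v`, contribute zeros of `h` modulo `p`, the other places contribute `n`-th powers to the norms `N (δ k)` and
multiples of `n` to the degree. So there are zeros of `h` modulo `p`, with multiplicities, of total degree congruent to `[F : ℚ]`
modulo `n`, on which the `g k` have product `N (δ k)` up to `n`-th powers. By the theorem of Chebotarev this is false for many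
primes `p` if `N (δ)` is not persistent; up to `n`-th powers there are only finitely many norms `N (δ)`.
-/

set_option autoImplicit false

namespace Pool.Agent.Results.MP_d37f77_nt.OddDegreePoints

open Polynomial Filter NumberField IsDedekindDomain Pool.Agent.T9h60.OD
open Pool.Agent.R925.FD (CurveHasPoint exg exh exh_deg)
open Pool.Agent.Results.MP_d37f77_nt.TwistedCyclicCoverings (Admissible)
open Pool.Agent.Results.MP_d37f77_nt.FactorialTwists (FullWindow window_factorial window_centralBinom)

/-- The classes over number fields `F` whose coverings have points over all completions of `F` have norms which are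
persistent of degree `[F : ℚ]`. -/
def NormsPersistent {K : Type} [Fintype K] (n : ℕ) (b : ℤ) (g : K → ℤ[X]) (h : ℤ[X]) (a : ℤ) : Prop :=
  ∀ m, 2 ≤ m → n ∣ m → m ∣ h.natDegree → ∀ (F : Type) [Field F] [NumberField F] (δ : K → F), IsClassF n b δ →
    (∀ v : HeightOneSpectrum (𝓞 F), LocalPoint n m a g h δ (v.adicCompletion F)) →
    PersistentDeg n (Module.finrank ℚ F) g h (fun k => Algebra.norm ℚ (δ k))

/-- Finite descent over the number field `F`: (1) no covering of `C a` over `F` has points over all completions of `F`,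
(2) `C a` has no points over `F`, and (3) if `U` is an affine variety over `ℚ` with a morphism over `F` to `C a`, then no
covering `V δ` of `U` has points over all the fields `ℚ_p`, and `U` has no rational points. -/
def EmptyOver {K : Type} [Fintype K] (n m : ℕ) (b a : ℤ) (g : K → ℤ[X]) (h : ℤ[X]) (F : Type) [Field F]
    [NumberField F] : Prop :=
  (∀ δ : K → F, IsClassF n b δ →
    ¬ ∀ v : HeightOneSpectrum (𝓞 F), LocalPoint n m a g h δ (v.adicCompletion F)) ∧
  ¬ CurveHasPoint n m b a g h F ∧
  ∀ (N : ℕ) (S : Set (MvPolynomial (Fin N) ℚ)) (Z W X Y : MvPolynomial (Fin N) F),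
    IsMorphism n m b a g h S Z W X Y →
      (∀ δ : K → F, IsClassF n b δ → ¬ ∀ (p : ℕ) [Fact p.Prime], PullbackHasPoint n g S Z W δ ℚ_[p]) ∧
      ¬ ∃ P : Fin N → ℚ, ∀ f ∈ S, MvPolynomial.eval P f = 0

/-- There are no classes which are persistent of a degree prime to `n`. -/
def NoClass {K : Type} [Fintype K] (n : ℕ) (b : ℤ) (g : K → ℤ[X]) (h : ℤ[X]) : Prop :=
  ∀ r : ℕ, r.Coprime n → ∀ D : K → ℚ, (∀ k, D k ≠ 0) → (∃ t : ℚ, ∏ k, D k = (b : ℚ) ^ r * t ^ n) →
    ¬ PersistentDeg n r g h D

/-- The conclusions for the integer `a`. -/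
def Good {K : Type} [Fintype K] (n : ℕ) (b : ℤ) (g : K → ℤ[X]) (h : ℤ[X]) (a : ℤ) : Prop :=
  NormsPersistent n b g h a ∧
    (NoClass n b g h → ∀ m, 2 ≤ m → n ∣ m → m ∣ h.natDegree → ∀ (F : Type) [Field F] [NumberField F],
      (Module.finrank ℚ F).Coprime n → EmptyOver n m b a g h F)

lemma good_of {K : Type} [Fintype K] {n : ℕ} {b : ℤ} {g : K → ℤ[X]} {h : ℤ[X]} (hA : Admissible n b g h) {a : ℤ}
    (hp : ODProp n b g h a) : Good n b g h a := by
  have h0 : NormsPersistent n b g h a := fun m hm hnm hmh F _ _ δ h1 h2 => hp m hm hnm hmh F δ h1.1 h1.2 h2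
  refine ⟨h0, fun hno m hm hnm hmh F _ _ hr => ?_⟩
  have h1 : ∀ δ : K → F, IsClassF n b δ →
      ¬ ∀ v : HeightOneSpectrum (𝓞 F), LocalPoint n m a g h δ (v.adicCompletion F) := by
    intro δ hδ hloc
    refine hno _ hr _ (fun k => Algebra.norm_ne_zero_iff.2 (hδ.1 k)) ?_ (h0 m hm hnm hmh F δ hδ hloc)
    obtain ⟨t, ht⟩ := hδ.2
    refine ⟨Algebra.norm ℚ t, ?_⟩
    rw [← map_prod, ht, map_mul, map_pow]
    congr 1
    have h2 := Algebra.norm_algebraMap (S := F) (b : ℚ)
    rw [map_intCast] at h2
    exact h2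
  have h2 : ¬ CurveHasPoint n m b a g h F := by
    intro hC
    obtain ⟨δ, h3, h4⟩ := exists_classF n m hA.n_pos b a hA.b_ne g h hA.g_ne hA.coprime hC
    exact h1 δ h3 fun v => local_of_global h4 _
  refine ⟨h1, h2, fun N S Z W X Y hU => ⟨fun δ hδ hloc => h1 δ hδ fun v => ?_, fun hP => h2 (curve_of_rational hU hP)⟩⟩
  obtain ⟨p, hp, hpv⟩ := exists_prime_mem v
  have hF : Fact p.Prime := ⟨hp⟩
  exact local_of_pullback hU v hpv (hloc p)

lemma ex_noClass : NoClass 2 1 exg exh := by
  intro r hr D hD _
  exact ex_odd D (hD 0) r (Nat.coprime_two_right.1 hr)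

open Classical in
/-- **Finite descent over all number fields of degree prime to `n`.** -/
theorem result :
    (∀ (K : Type) [Fintype K] (n : ℕ) (b : ℤ) (g : K → ℤ[X]) (h : ℤ[X]), Admissible n b g h →
      (∀ lam mu : ℝ, 0 < lam → lam < mu → ∃ y₀ : ℕ, ∀ y : ℕ, y₀ ≤ y →
        ∀ a : ℤ, FullWindow h.natDegree lam mu y a → Good n b g h a) ∧
      ∃ κ C : ℝ, 0 < κ ∧ 0 ≤ C ∧ ∀ (M : ℤ) (H : ℕ), 3 ≤ H →
        (((Finset.Ioc M (M + H)).filter fun a => ¬ Good n b g h a).card : ℝ) ≤ C * H * (Real.log H) ^ (-κ)) ∧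
    (Admissible 2 1 exg exh ∧ NoClass 2 1 exg exh ∧ ∀ (a : ℤ) (m : ℕ), m ≠ 0 →
      CurveHasPoint 2 m 1 a exg exh ℝ ∧ ∀ (p : ℕ) [Fact p.Prime], CurveHasPoint 2 m 1 a exg exh ℚ_[p]) ∧
    (∀ u : ℤ, u ≠ 0 → ∀ᶠ y : ℕ in atTop, ∀ a : ℤ, (a = u * y.factorial ∨ a = u * y.centralBinom) →
      ∀ m : ℕ, (m = 2 ∨ m = 6) → ∀ (F : Type) [Field F] [NumberField F], Odd (Module.finrank ℚ F) →
        EmptyOver 2 m 1 a exg exh F) := by
  have hmain : ∀ (K : Type) [Fintype K] (n : ℕ) (b : ℤ) (g : K → ℤ[X]) (h : ℤ[X]), Admissible n b g h →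
      (∀ lam mu : ℝ, 0 < lam → lam < mu → ∃ y₀ : ℕ, ∀ y : ℕ, y₀ ≤ y →
        ∀ a : ℤ, FullWindow h.natDegree lam mu y a → Good n b g h a) ∧
      ∃ κ C : ℝ, 0 < κ ∧ 0 ≤ C ∧ ∀ (M : ℤ) (H : ℕ), 3 ≤ H →
        (((Finset.Ioc M (M + H)).filter fun a => ¬ Good n b g h a).card : ℝ) ≤ C * H * (Real.log H) ^ (-κ) := by
    intro K _ n b g h hA
    have hcrit := od_crit n hA.n_pos b hA.b_ne g h hA.g_ne hA.h_ne hA.deg hA.coprime hA.coprime_h
    refine ⟨fun lam mu hlam hmu => ?_, ?_⟩
    · obtain ⟨y₀, hy₀⟩ := window_of_crit hcrit hlam hmu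
      exact ⟨y₀, fun y hy a ha => good_of hA (hy₀ y hy a ha)⟩
    · obtain ⟨κ, C, hκ, hC, hb⟩ := short_of_crit hcrit
      refine ⟨κ, C, hκ, hC, fun M H hH => le_trans ?_ (hb M H hH)⟩
      refine Nat.cast_le.2 (Finset.card_le_card ?_)
      intro a ha
      rw [Finset.mem_filter] at ha ⊢
      exact ⟨ha.1, fun h1 => ha.2 (good_of hA h1)⟩
  have hex : Admissible 2 1 exg exh := Pool.Agent.Results.MP_d37f77_nt.TwistedCyclicCoverings.result.2.2.1
  refine ⟨hmain, ⟨hex, ex_noClass,
    fun a m hm => Pool.Agent.Results.MP_d37f77_nt.TwistedCyclicCoverings.result.2.2.2.2 a m hm⟩, ?_⟩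
  intro u hu
  obtain ⟨y₁, hy₁⟩ := (hmain _ 2 1 exg exh hex).1 (1 / 2) 1 (by norm_num) (by norm_num)
  obtain ⟨y₂, hy₂⟩ := (hmain _ 2 1 exg exh hex).1 1 2 (by norm_num) (by norm_num)
  filter_upwards [window_factorial exh.natDegree hu, window_centralBinom exh.natDegree hu, eventually_ge_atTop y₁,
    eventually_ge_atTop y₂] with y w1 w2 h1 h2 a ha m hm F _ _ hF
  have hgood : Good 2 1 exg exh a := by
    rcases ha with rfl | rfl
    · exact hy₁ y h1 _ w1
    · exact hy₂ y h2 _ w2
  refine hgood.2 ex_noClass m (by omega) ?_ ?_ F (Nat.coprime_two_right.2 hF)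
  · rcases hm with rfl | rfl <;> norm_num
  · rw [exh_deg]
    rcases hm with rfl | rfl <;> norm_num

end Pool.Agent.Results.MP_d37f77_nt.OddDegreePoints
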