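import Pool.Agent.Results.MP_d37f77_nt.TwistedCyclicCoverings
import Pool.Agent.T9h60.FD.PMain
import Pool.Agent.T9h60.FD.PEx

/-!
# Finite descent on the twists of cyclic coverings by the values of a polynomial, in short intervals and
at primes

Let `D : b y ^ n = ∏ k, G k (z, w)` be a curve over `ℚ`, where the `G k` are the homogenisations of
polynomials `g k` with integral coefficients, of degrees divisible by `n`, pairwise coprime, and let
`h` be a polynomial with integral coefficients, coprime to the `g k`, and `H` its homogenisation. For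
an integer `a` and `m ≥ 2`, `m ∣ deg h`, consider the curve

  `C a : b y ^ n = ∏ k, G k (z, w)`, `a x ^ m = H (z, w)`,

a cyclic covering of degree `m` of `D`; for different `a` these are twists of each other. Every
`n`-covering of `C a` factors through one of the coverings

  `D δ : G k (z, w) = δ k * y k ^ n` (all `k`), `a x ^ m = H (z, w)`, `∏ δ k = b t ^ n`.

The starting files on these coverings consider almost all squarefree integers `a`, `|a| ≤ X`
(`TwistedCyclicCoverings`), and sequences which are uniformly distributed modulo all integers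
(`ThinSequencesOfCoverings`). Here `a = P(t)` is the value of an arbitrary polynomial `P ≠ 0` with integral
coefficients, at the integers or at the primes `t` of an interval. Then the primes which divide `a`
exactly once are not arbitrary: their Frobenius elements fix zeros of `P`, and the obstruction changes. A class `δ`
is called persistent for `P` if every automorphism `σ` of the field of algebraic numbers WHICH FIXES A
SIMPLE ZERO OF `P` fixes a zero `β` of `h` and solutions `y k` of `g k (β) = δ k * y k ^ n` (all `k`). This is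
the notion of the starting files if `P` has a simple rational zero, and weaker in general.

**Theorem.** Let `P ≠ 0`. (1) For all data `n`, `b`, `g`, `h` there are `κ > 0` and `C` such that in EVERY interval
`(M, M + H]`, `H ≥ 3`, the coverings `D δ` of `C a`, `a = P(t)`, with points over all `ℚ_p` are persistent
for `P`, for all integers `t` of the interval with at most `C H (log H) ^ (-κ)` exceptions, and, if
`P(0) ≠ 0`, for all primes `t` (or `-t`) of the interval with at most `C H (log H) ^ (-1 - κ)` exceptions. If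
no class is persistent for `P`, then for the same `t` no `D δ` has points over all `ℚ_p`, and `C a` has no
rational points.

(2) If `P` has a simple rational zero, the persistent classes for `P` are the persistent classes. If
moreover `n = 2` and the zeros of `h` are one or two integers, then the coverings `D δ` satisfy the Hasse principle,
with the same exceptions.

(3) Suppose that `P` has a simple zero `θ` such that `ℚ(θ)` does not contain the square roots of `-1`,
`-2`, `±17`, `±34` (for instance a simple rational zero). Then for `m = 2, 3, 6` and all integers (primes,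
if `P(0) ≠ 0`) `t` of the interval, with the same number of exceptions, the curves

  `Y² = (z² + 51) (z² - 1)`, `P(t) x ^ m = (z² + 1) (z² - 17) (z² + 17)`

have points over `ℝ` and over all `ℚ_p`, but no rational points, and finite descent explains this.

For `P = X` these are statements on all integers `a` (squarefree or not) in all short intervals. The
intervals are not restricted in terms of `M`: their lengths can be bounded.

Proof. For a class which is not persistent for `P` there is by the theorem of Chebotarev a set of primes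
`p` of positive density with a prescribed Frobenius element, modulo which `P` has a simple zero `ρ p`, such that
`D δ` has no point over `ℚ_p` if `p` divides `a = P(t)` exactly once. The integers `t` without such a
prime avoid the classes `ρ p` modulo `p`, up to few exceptions coming from the classes modulo `p²`, and are
counted by Brun's sieve; for primes `t` the classes `0` are also avoided.
-/

set_option autoImplicit false

namespace Pool.Agent.Results.MP_d37f77_nt.PolynomialTwists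

open Polynomial Pool.Agent.R925.FD IntermediateField
open Pool.Agent.Results.MP_d37f77_nt.TwistedCyclicCoverings (Admissible LocallySoluble)
open Pool.Agent.T9h60.FD (PersistentFor NoRoots)

/-- The coverings of the curves `C a` with points over all the fields `ℚ_p` are persistent for `P`. -/
def OnlyPersistentFor (P : ℤ[X]) {K : Type} [Fintype K] (n : ℕ) (b : ℤ) (g : K → ℤ[X]) (h : ℤ[X])
    (a : ℤ) : Prop :=
  ∀ m, 2 ≤ m → m ∣ h.natDegree → ∀ δ : K → ℚ, IsClass n b δ → LocallySoluble n m a g h δ →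
    PersistentFor P n g h δ

/-- No covering of one of the curves `C a` has points over all the fields `ℚ_p`, and the curves have no
rational points. -/
def EmptySelmer {K : Type} [Fintype K] (n : ℕ) (b : ℤ) (g : K → ℤ[X]) (h : ℤ[X]) (a : ℤ) : Prop :=
  ∀ m, 2 ≤ m → m ∣ h.natDegree → (∀ δ : K → ℚ, IsClass n b δ → ¬ LocallySoluble n m a g h δ) ∧
    ¬ CurveHasPoint n m b a g h ℚ

/-- The coverings of the curves `C a` which have points over all the fields `ℚ_p` have rational points. -/
def HassePrinciple {K : Type} [Fintype K] (b : ℤ) (g : K → ℤ[X]) (h : ℤ[X]) (a : ℤ) : Prop :=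
  ∀ m, 2 ≤ m → m ∣ h.natDegree → ∀ δ : K → ℚ, IsClass 2 b δ → LocallySoluble 2 m a g h δ →
    CoveringHasPoint 2 m a g h δ ℚ

/-- `T t` is true for all integers `t` of all intervals `(M, M + H]`, with at most `C H (log H) ^ (-κ)`
exceptions, and, if `P(0) ≠ 0`, for all primes `t` and `-t` with at most `C H (log H) ^ (-1 - κ)` exceptions. -/
def MostlyTrue (P : ℤ[X]) (T : ℤ → Prop) : Prop :=
  ∃ κ C : ℝ, 0 < κ ∧ ∀ (M : ℤ) (H : ℕ), 3 ≤ H →
    ({t : ℤ | M < t ∧ t ≤ M + H ∧ ¬ T t}.ncard : ℝ) ≤ C * H * (Real.log H) ^ (-κ) ∧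
    (P.eval 0 ≠ 0 → ({t : ℤ | M < t ∧ t ≤ M + H ∧ t.natAbs.Prime ∧ ¬ T t}.ncard : ℝ) ≤
      C * H * (Real.log H) ^ (-(1 + κ)))

lemma MostlyTrue.mono {P : ℤ[X]} {T T' : ℤ → Prop} (h : MostlyTrue P T) (h' : ∀ t, T t → T' t) :
    MostlyTrue P T' := by
  obtain ⟨κ, C, hκ, hC⟩ := h
  have hfin : ∀ (M : ℤ) (H : ℕ) (S : Set ℤ), S ⊆ {t : ℤ | M < t ∧ t ≤ M + H} → S.Finite := by
    intro M H S hS
    exact (Set.finite_Ioc M (M + H)).subset fun t ht => ⟨(hS ht).1, (hS ht).2⟩
  refine ⟨κ, C, hκ, fun M H hH => ⟨?_, fun h0 => ?_⟩⟩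
  · refine le_trans ?_ (hC M H hH).1
    refine Nat.cast_le.2 (Set.ncard_le_ncard ?_ (hfin M H _ fun t ht => ⟨ht.1, ht.2.1⟩))
    rintro t ⟨h1, h2, h3⟩
    exact ⟨h1, h2, fun h4 => h3 (h' t h4)⟩
  · refine le_trans ?_ ((hC M H hH).2 h0)
    refine Nat.cast_le.2 (Set.ncard_le_ncard ?_ (hfin M H _ fun t ht => ⟨ht.1, ht.2.1⟩))
    rintro t ⟨h1, h2, h5, h3⟩
    exact ⟨h1, h2, h5, fun h4 => h3 (h' t h4)⟩

lemma mem_filter_of {α : Type} {p : α → Prop} {inst : DecidablePred p} {s : Finset α} {a : α} (h1 : a ∈ s)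
    (h2 : p a) : a ∈ @Finset.filter α p inst s := Finset.mem_filter.2 ⟨h1, h2⟩

section
variable {K : Type} [Fintype K] {n : ℕ} {b : ℤ} {g : K → ℤ[X]} {h : ℤ[X]} {a : ℤ}

theorem mostly_only (P : ℤ[X]) (hP : P ≠ 0) (hA : Admissible n b g h) :
    MostlyTrue P fun t => OnlyPersistentFor P n b g h (P.eval t) := by
  classical
  obtain ⟨κ₁, C₁, hκ₁, hC₁, h1⟩ := Pool.Agent.T9h60.FD.poly_main P hP n hA.n_pos b hA.b_ne g h hA.g_ne hA.h_ne
    hA.deg hA.coprime hA.coprime_h False (fun h => h.elim)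
  obtain ⟨κ₂, C₂, hκ₂, hC₂, h2⟩ := Pool.Agent.T9h60.FD.poly_main P hP n hA.n_pos b hA.b_ne g h hA.g_ne hA.h_ne
    hA.deg hA.coprime hA.coprime_h (P.eval 0 ≠ 0) (fun h => h)
  refine ⟨min κ₁ κ₂, C₁ + C₂, lt_min hκ₁ hκ₂, fun M H hH => ?_⟩
  have hH0 : (0 : ℝ) ≤ H := Nat.cast_nonneg _
  have hHr : (3 : ℝ) ≤ H := by exact_mod_cast hH
  have hlog : 1 ≤ Real.log H := by
    rw [Real.le_log_iff_exp_le (by linarith)]
    have := Real.exp_one_lt_d9
    linarith
  have key : ∀ (S : Set ℤ) (F : Finset ℤ), (∀ t ∈ S, t ∈ F) → (S.ncard : ℝ) ≤ F.card := by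
    intro S F hSF
    rw [← Set.ncard_coe_finset]
    exact Nat.cast_le.2 (Set.ncard_le_ncard hSF (Finset.finite_toSet F))
  have hpow : ∀ x y : ℝ, y ≤ x → (Real.log H) ^ (-x) ≤ (Real.log H) ^ (-y) := fun x y hxy =>
    Real.rpow_le_rpow_of_exponent_le hlog (neg_le_neg hxy)
  have hpos : ∀ x : ℝ, 0 ≤ (Real.log H) ^ x := fun x => Real.rpow_nonneg (by linarith) x
  refine ⟨?_, fun h0 => ?_⟩
  · have h3 := h1 M H hH
    rw [if_neg not_false, add_zero] at h3
    refine (key _ _ ?_).trans (h3.trans ?_)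
    · rintro t ⟨h5, h6, h7⟩
      exact mem_filter_of (Finset.mem_Ioc.2 ⟨h5, h6⟩) ⟨False.elim, h7⟩
    have h4 := hpow κ₁ (min κ₁ κ₂) (min_le_left _ _)
    calc C₁ * H * (Real.log H) ^ (-κ₁) ≤ C₁ * H * (Real.log H) ^ (-(min κ₁ κ₂)) :=
          mul_le_mul_of_nonneg_left h4 (by positivity)
      _ ≤ (C₁ + C₂) * H * (Real.log H) ^ (-(min κ₁ κ₂)) := by
          refine mul_le_mul_of_nonneg_right ?_ (hpos _)
          exact mul_le_mul_of_nonneg_right (by linarith) hH0
  · have h3 := h2 M H hH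
    rw [if_pos h0] at h3
    refine (key _ _ ?_).trans (h3.trans ?_)
    · rintro t ⟨h5, h6, h7, h8⟩
      exact mem_filter_of (Finset.mem_Ioc.2 ⟨h5, h6⟩) ⟨fun _ => h7, h8⟩
    have h4 := hpow (κ₂ + 1) (1 + min κ₁ κ₂) (by linarith [min_le_right κ₁ κ₂])
    calc C₂ * H * (Real.log H) ^ (-(κ₂ + 1)) ≤ C₂ * H * (Real.log H) ^ (-(1 + min κ₁ κ₂)) :=
          mul_le_mul_of_nonneg_left h4 (by positivity)
      _ ≤ (C₁ + C₂) * H * (Real.log H) ^ (-(1 + min κ₁ κ₂)) := by
          refine mul_le_mul_of_nonneg_right ?_ (hpos _)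
          exact mul_le_mul_of_nonneg_right (by linarith) hH0

/-- A rational point of a covering is a point over `ℚ_p`. -/
lemma local_of_rational {m : ℕ} {δ : K → ℚ} (hC : CoveringHasPoint n m a g h δ ℚ) :
    LocallySoluble n m a g h δ := by
  intro p hp
  obtain ⟨z, w, x, hzw, hx, hy⟩ := hC
  refine ⟨(z : ℚ_[p]), (w : ℚ_[p]), (x : ℚ_[p]), ?_, ?_, fun k => ?_⟩
  · rcases hzw with h1 | h1
    · exact Or.inl (Rat.cast_ne_zero.2 h1)
    · exact Or.inr (Rat.cast_ne_zero.2 h1)
  · have h2 := congrArg (fun q : ℚ => (q : ℚ_[p])) hx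
    simp only [Rat.cast_mul, Rat.cast_pow, Rat.cast_intCast] at h2
    rw [h2]
    exact (hom_map h (Rat.castHom ℚ_[p]) z w)
  · obtain ⟨y, hyk⟩ := hy k
    refine ⟨(y : ℚ_[p]), ?_⟩
    have h2 := congrArg (fun q : ℚ => (q : ℚ_[p])) hyk
    simp only [Rat.cast_mul, Rat.cast_pow, Rat.cast_id] at h2
    rw [← h2]
    exact (hom_map (g k) (Rat.castHom ℚ_[p]) z w).symm

lemma empty_of {P : ℤ[X]} (hA : Admissible n b g h)
    (hno : ∀ δ : K → ℚ, IsClass n b δ → ¬ PersistentFor P n g h δ)
    (hp : OnlyPersistentFor P n b g h a) : EmptySelmer n b g h a := by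
  classical
  intro m hm hmh
  refine ⟨fun δ h1 h2 => hno δ h1 (hp m hm hmh δ h1 h2), fun hC => ?_⟩
  obtain ⟨δ, h1, h2⟩ := exists_class n m hA.n_pos b a hA.b_ne g h hA.g_ne hA.coprime hC
  exact hno δ h1 (hp m hm hmh δ h1 (local_of_rational h2))

/-- persistent classes are persistent for `P` -/
lemma persistentFor_of (P : ℤ[X]) {δ : K → ℚ} (hp : Persistent n g h δ) : PersistentFor P n g h δ :=
  fun σ _ => hp σ

lemma persistent_of {P : ℤ[X]} {q : ℚ} (h0 : aeval q P = 0) (h1 : aeval q (derivative P) ≠ 0) {δ : K → ℚ}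
    (hp : PersistentFor P n g h δ) : Persistent n g h δ := by
  have hcast : ∀ f : ℤ[X], aeval (q : AlgebraicClosure ℚ) f = ((aeval q f : ℚ) : AlgebraicClosure ℚ) := by
    intro f
    rw [aeval_def, aeval_def]
    have e1 : algebraMap ℤ (AlgebraicClosure ℚ) =
        (Rat.castHom (AlgebraicClosure ℚ)).comp (algebraMap ℤ ℚ) := RingHom.ext_int _ _
    rw [e1]
    exact (hom_eval₂ f (algebraMap ℤ ℚ) (Rat.castHom (AlgebraicClosure ℚ)) q).symm
  intro σ
  refine hp σ ⟨(q : AlgebraicClosure ℚ), map_ratCast σ q, ?_, ?_⟩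
  · rw [hcast, h0, Rat.cast_zero]
  · rw [hcast]
    exact Rat.cast_ne_zero.2 h1

lemma hasse_of {α₁ α₂ : ℤ} (hA : Admissible 2 b g h)
    (hz : ∀ β : AlgebraicClosure ℚ, aeval β h = 0 ↔ β = α₁ ∨ β = α₂)
    {P : ℤ[X]} {q : ℚ} (h0 : aeval q P = 0) (h1 : aeval q (derivative P) ≠ 0)
    (hp : OnlyPersistentFor P 2 b g h a) : HassePrinciple b g h a := by
  intro m hm hmh δ h3 h4
  have hper := persistent_of h0 h1 (hp m hm hmh δ h3 h4)
  -- the zeros of `h`
  have hzero : ∀ α : ℤ, aeval (α : AlgebraicClosure ℚ) h = 0 → h.eval α = 0 := by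
    intro α hα
    have h6 := aeval_algebraMap_apply_eq_algebraMap_eval (A := AlgebraicClosure ℚ) α h
    rw [eq_intCast, eq_intCast, hα] at h6
    exact_mod_cast h6.symm
  have hpt : ∀ (f : ℤ[X]) (α : ℤ), hom f (α : ℚ) 1 = ((f.eval α : ℤ) : ℚ) := by
    intro f α
    rw [hom_one]
    have h6 := eval₂_at_apply (p := f) (Int.castRingHom ℚ) α
    rw [eq_intCast, eq_intCast] at h6
    exact h6
  have hg : ∀ (k : K) (α : ℤ), h.eval α = 0 → (g k).eval α ≠ 0 := by
    intro k α hα hgα
    refine coprime_field hA.h_ne (hA.coprime_h k) (F := ℚ) (z := (α : ℚ)) (w := 1)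
      (Or.inr one_ne_zero) ?_ ?_
    · rw [hpt, hα, Int.cast_zero]
    · rw [hpt, hgα, Int.cast_zero]
  have hα₁ := hzero α₁ ((hz α₁).2 (Or.inl rfl))
  have hα₂ := hzero α₂ ((hz α₂).2 (Or.inr rfl))
  have key : ∀ α : ℤ, h.eval α = 0 → (∀ k, IsSquare (δ k * ((g k).eval α : ℤ))) →
      CoveringHasPoint 2 m a g h δ ℚ := by
    intro α hα hsq
    refine ⟨α, 1, 0, Or.inr one_ne_zero, ?_, fun k => ?_⟩
    · rw [hpt, hα, zero_pow (by omega : m ≠ 0), mul_zero, Int.cast_zero]
    · obtain ⟨r, hr⟩ := hsq k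
      have h7 := h3.1 k
      refine ⟨r / δ k, ?_⟩
      rw [hpt, Rat.cast_id, div_pow, sq r, ← hr]
      field_simp
  rcases persistent_two g h α₁ α₂ (fun β hβ => (hz β).1 hβ) (fun k => hg k α₁ hα₁)
    (fun k => hg k α₂ hα₂) δ h3.1 hper with h6 | h6
  · exact key α₁ hα₁ h6
  · exact key α₂ hα₂ h6

end

/-- **Finite descent on the twists by the values of a polynomial.** -/
theorem result :
    (∀ P : ℤ[X], P ≠ 0 → ∀ (K : Type) [Fintype K] (n : ℕ) (b : ℤ) (g : K → ℤ[X]) (h : ℤ[X]),
      Admissible n b g h →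
      MostlyTrue P (fun t => OnlyPersistentFor P n b g h (P.eval t)) ∧
      ((∀ δ : K → ℚ, IsClass n b δ → ¬ PersistentFor P n g h δ) →
        MostlyTrue P (fun t => EmptySelmer n b g h (P.eval t)))) ∧
    (∀ (P : ℤ[X]) (q : ℚ), aeval q P = 0 → aeval q (derivative P) ≠ 0 →
      ∀ (K : Type) [Fintype K] (n : ℕ) (b : ℤ) (g : K → ℤ[X]) (h : ℤ[X]),
      (∀ δ : K → ℚ, PersistentFor P n g h δ ↔ Persistent n g h δ) ∧
      (Admissible 2 b g h → ∀ α₁ α₂ : ℤ, (∀ β : AlgebraicClosure ℚ, aeval β h = 0 ↔ β = α₁ ∨ β = α₂) →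
        MostlyTrue P (fun t => HassePrinciple b g h (P.eval t)))) ∧
    (∀ (P : ℤ[X]) (θ : AlgebraicClosure ℚ), aeval θ P = 0 → aeval θ (derivative P) ≠ 0 →
      (∀ x ∈ ℚ⟮θ⟯, ∀ q : ℤ, (q = -1 ∨ q = -2 ∨ q = 17 ∨ q = -17 ∨ q = 34 ∨ q = -34) → x ^ 2 ≠ q) →
      MostlyTrue P fun t => ∀ m : ℕ, (m = 2 ∨ m = 3 ∨ m = 6) →
        (CurveHasPoint 2 m 1 (P.eval t) exg exh ℝ ∧
          ∀ (p : ℕ) [Fact p.Prime], CurveHasPoint 2 m 1 (P.eval t) exg exh ℚ_[p]) ∧
        (∀ δ : Fin 2 → ℚ, IsClass 2 1 δ → ¬ LocallySoluble 2 m (P.eval t) exg exh δ) ∧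
        ¬ CurveHasPoint 2 m 1 (P.eval t) exg exh ℚ) := by
  have hmain : ∀ P : ℤ[X], P ≠ 0 → ∀ (K : Type) [Fintype K] (n : ℕ) (b : ℤ) (g : K → ℤ[X]) (h : ℤ[X]),
      Admissible n b g h →
      MostlyTrue P (fun t => OnlyPersistentFor P n b g h (P.eval t)) ∧
      ((∀ δ : K → ℚ, IsClass n b δ → ¬ PersistentFor P n g h δ) →
        MostlyTrue P (fun t => EmptySelmer n b g h (P.eval t))) := by
    intro P hP K _ n b g h hA
    have h1 := mostly_only P hP hA
    exact ⟨h1, fun hno => h1.mono fun t => empty_of hA hno⟩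
  have hne : ∀ (P : ℤ[X]) {F : Type} [Field F] (θ : F), aeval θ (derivative P) ≠ 0 → P ≠ 0 := by
    rintro P F _ θ h1 rfl
    exact h1 (by rw [derivative_zero, map_zero])
  refine ⟨hmain, fun P q h0 h1 K _ n b g h => ⟨fun δ => ⟨persistent_of h0 h1, persistentFor_of P⟩,
    fun hA α₁ α₂ hz => ?_⟩, fun P θ h0 h1 hθ => ?_⟩
  · exact (mostly_only P (hne P q h1) hA).mono fun t => hasse_of hA hz h0 h1
  · obtain ⟨hA, -, hloc⟩ := TwistedCyclicCoverings.result.2.2
    refine ((hmain P (hne P θ h1) (Fin 2) 2 1 exg exh hA).2 fun δ hδ =>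
      Pool.Agent.T9h60.FD.no_pers P θ h0 h1 hθ δ (hδ.1 0)).mono fun t ht m hm => ?_
    have hm0 : m ≠ 0 := by omega
    have hm2 : 2 ≤ m := by omega
    have hmd : m ∣ exh.natDegree := by
      rw [exh_deg]
      rcases hm with rfl | rfl | rfl <;> norm_num
    exact ⟨hloc _ m hm0, ht m hm2 hmd⟩

end Pool.Agent.Results.MP_d37f77_nt.PolynomialTwists
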